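import Pool.Agent.Helper41.MR.Stmt

/-!
# The set of splitting alternating forms is recursively enumerable
-/

set_option autoImplicit false

namespace Pool.Agent.Helper60.MR

open Pool.Agent.Helper41.MR

section

variable {α : Type} [Primcodable α]

/-- projections of computable relations are recursively enumerable -/
theorem re_exists {β : Type} [Primcodable β] {R : α → β → Prop}
    (h : PrimrecPred fun x : α × β => R x.1 x.2) : REPred fun a => ∃ b, R a b := by
  classical
  let f : α → ℕ → Bool := fun a n => ((Encodable.decode (α := β) n).map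
    fun b => decide (R a b)).getD false
  have hf : Primrec₂ f := by
    have h1 : Primrec₂ fun (x : α × ℕ) (b : β) => decide (R x.1 b) := by
      have h2 : Primrec fun y : (α × ℕ) × β => (y.1.1, y.2) :=
        Primrec.pair (Primrec.fst.comp Primrec.fst) Primrec.snd
      exact (PrimrecPred.decide (h.comp h2))
    exact Primrec.option_getD.comp
      (Primrec.option_map (Primrec.decode.comp Primrec.snd) h1) (Primrec.const false)
  have h3 : Partrec fun a => Nat.rfind fun n => Part.some (f a n) :=
    Partrec.rfind (Primrec₂.to_comp hf).partrec₂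
  refine (Partrec.dom_re h3).of_eq fun a => ?_
  rw [Nat.rfind_dom']
  constructor
  · rintro ⟨n, hn, -⟩
    have hn' : f a n = true := (Part.mem_some_iff.1 hn).symm
    simp only [f] at hn'
    cases hb : Encodable.decode (α := β) n with
    | none =>
      rw [hb] at hn'
      simp at hn'
    | some b =>
      rw [hb] at hn'
      exact ⟨b, by simpa using hn'⟩
  · rintro ⟨b, hb⟩
    refine ⟨Encodable.encode b, ?_, fun _ => trivial⟩
    rw [Part.mem_some_iff]
    simp [f, hb]

theorem encode_sub (u w : ℕ) : Encodable.encode ((u : ℤ) - (w : ℤ)) =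
    if w ≤ u then 2 * (u - w) else 2 * (w - u - 1) + 1 := by
  have h : ∀ z : ℤ, Encodable.encode z = Equiv.intEquivNat z := fun z => rfl
  rw [h]
  split_ifs with hw
  · obtain ⟨t, rfl⟩ := Nat.exists_eq_add_of_le hw
    have : ((w + t : ℕ) : ℤ) - (w : ℤ) = Int.ofNat t := by
      push_cast
      simp
    rw [this, Nat.add_sub_cancel_left]
    rfl
  · push Not at hw
    obtain ⟨t, rfl⟩ := Nat.exists_eq_add_of_lt hw
    have : ((u : ℕ) : ℤ) - ((u + t + 1 : ℕ) : ℤ) = Int.negSucc t := by
      rw [Int.negSucc_eq]
      push_cast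
      ring
    rw [this]
    have h2 : u + t + 1 - u - 1 = t := by omega
    rw [h2]
    rfl

theorem primrec_sub {f g : α → ℕ} (hf : Primrec f) (hg : Primrec g) :
    Primrec fun a => ((f a : ℕ) : ℤ) - ((g a : ℕ) : ℤ) := by
  refine Primrec.encode_iff.1 ?_
  have h1 : Primrec fun a => if g a ≤ f a then 2 * (f a - g a) else
      2 * (g a - f a - 1) + 1 := by
    refine Primrec.ite (Primrec.nat_le.comp hg hf) ?_ ?_
    · exact Primrec.nat_mul.comp (Primrec.const 2) (Primrec.nat_sub.comp hf hg)
    · exact Primrec.succ.comp (Primrec.nat_mul.comp (Primrec.const 2)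
        (Primrec.nat_sub.comp (Primrec.nat_sub.comp hg hf) (Primrec.const 1)))
  refine h1.of_eq fun a => ?_
  rw [encode_sub]

/-- positive part -/
theorem primrec_pos : Primrec fun z : ℤ => z.toNat := by
  have h1 : Primrec fun z : ℤ => if Encodable.encode z % 2 = 0 then Encodable.encode z / 2
      else 0 := by
    refine Primrec.ite (Primrec.eq.comp (Primrec.nat_mod.comp Primrec.encode (Primrec.const 2))
      (Primrec.const 0)) ?_ (Primrec.const 0)
    exact Primrec.nat_div.comp Primrec.encode (Primrec.const 2)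
  refine h1.of_eq fun z => ?_
  have h : Encodable.encode z = Equiv.intEquivNat z := rfl
  rw [h]
  cases z with
  | ofNat n =>
    have e : Equiv.intEquivNat (Int.ofNat n) = 2 * n := rfl
    rw [e, if_pos (by omega)]
    simp
  | negSucc n =>
    have e : Equiv.intEquivNat (Int.negSucc n) = 2 * n + 1 := rfl
    rw [e, if_neg (by omega)]
    rfl

/-- negative part -/
theorem primrec_neg_part : Primrec fun z : ℤ => (-z).toNat := by
  have h1 : Primrec fun z : ℤ => if Encodable.encode z % 2 = 0 then 0
      else (Encodable.encode z + 1) / 2 := by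
    refine Primrec.ite (Primrec.eq.comp (Primrec.nat_mod.comp Primrec.encode (Primrec.const 2))
      (Primrec.const 0)) (Primrec.const 0) ?_
    exact Primrec.nat_div.comp (Primrec.succ.comp Primrec.encode) (Primrec.const 2)
  refine h1.of_eq fun z => ?_
  have h : Encodable.encode z = Equiv.intEquivNat z := rfl
  rw [h]
  cases z with
  | ofNat n =>
    have e : Equiv.intEquivNat (Int.ofNat n) = 2 * n := rfl
    rw [e, if_pos (by omega)]
    simp
  | negSucc n =>
    have e : Equiv.intEquivNat (Int.negSucc n) = 2 * n + 1 := rfl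
    rw [e, if_neg (by omega)]
    have e2 : (-(Int.negSucc n)).toNat = n + 1 := rfl
    rw [e2]
    omega

theorem primrec_add {f g : α → ℤ} (hf : Primrec f) (hg : Primrec g) :
    Primrec fun a => f a + g a := by
  have h1 := primrec_sub
    (Primrec.nat_add.comp (primrec_pos.comp hf) (primrec_pos.comp hg))
    (Primrec.nat_add.comp (primrec_neg_part.comp hf) (primrec_neg_part.comp hg))
  refine h1.of_eq fun a => ?_
  have e1 := Int.toNat_sub_toNat_neg (f a)
  have e2 := Int.toNat_sub_toNat_neg (g a)
  push_cast only [Nat.cast_add]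
  linarith

theorem primrec_mul {f g : α → ℤ} (hf : Primrec f) (hg : Primrec g) :
    Primrec fun a => f a * g a := by
  have hf1 := primrec_pos.comp hf
  have hf2 := primrec_neg_part.comp hf
  have hg1 := primrec_pos.comp hg
  have hg2 := primrec_neg_part.comp hg
  have h1 := primrec_sub
    (Primrec.nat_add.comp (Primrec.nat_mul.comp hf1 hg1) (Primrec.nat_mul.comp hf2 hg2))
    (Primrec.nat_add.comp (Primrec.nat_mul.comp hf1 hg2) (Primrec.nat_mul.comp hf2 hg1))
  refine h1.of_eq fun a => ?_
  have e1 := Int.toNat_sub_toNat_neg (f a)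
  have e2 := Int.toNat_sub_toNat_neg (g a)
  push_cast only [Nat.cast_add, Nat.cast_mul]
  conv_rhs => rw [← e1, ← e2]
  ring

theorem primrec_neg {f : α → ℤ} (hf : Primrec f) : Primrec fun a => - f a := by
  refine (primrec_mul (Primrec.const (-1)) hf).of_eq fun a => ?_
  ring

theorem primrec_sum {n : ℕ} {f : Fin n → α → ℤ} (h : ∀ i, Primrec (f i)) :
    Primrec fun a => ∑ i, f i a := by
  induction n with
  | zero =>
    simp only [Finset.univ_eq_empty, Finset.sum_empty]
    exact Primrec.const 0
  | succ n ih =>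
    simp only [Fin.sum_univ_succ]
    exact primrec_add (h 0) (ih fun i => h i.succ)

theorem pred_true : PrimrecPred fun _ : α => True :=
  ⟨fun _ => isTrue trivial, Primrec.const true⟩

theorem pred_const (p : Prop) : PrimrecPred fun _ : α => p := by
  classical
  exact ⟨fun _ => inferInstance, Primrec.const (decide p)⟩

theorem pred_forall {n : ℕ} {p : Fin n → α → Prop} (h : ∀ i, PrimrecPred (p i)) :
    PrimrecPred fun a => ∀ i, p i a := by
  induction n with
  | zero =>
    refine pred_true.of_eq fun a => ?_
    simp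
  | succ n ih =>
    refine ((h 0).and (ih fun i => h i.succ)).of_eq fun a => ?_
    rw [Fin.forall_fin_succ]

theorem pred_imp {p q : α → Prop} (hp : PrimrecPred p) (hq : PrimrecPred q) :
    PrimrecPred fun a => p a → q a := by
  refine (hp.not.or hq).of_eq fun a => ?_
  tauto

theorem pred_eq {f g : α → ℤ} (hf : Primrec f) (hg : Primrec g) :
    PrimrecPred fun a => f a = g a := Primrec.eq.comp hf hg

theorem primrec_app {n : ℕ} {σ : Type} [Primcodable σ] {f : α → Fin n → σ} (hf : Primrec f)
    (i : Fin n) : Primrec fun a => f a i :=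
  (Primrec.fin_app.comp hf (Primrec.const i))

theorem primrec_tri {n : ℕ} {c : α → Fin n → Fin n → Fin n → ℤ} {x y z : α → Fin n → ℤ}
    (hc : Primrec c) (hx : Primrec x) (hy : Primrec y) (hz : Primrec z) :
    Primrec fun a => tri (c a) (x a) (y a) (z a) := by
  refine primrec_sum fun i => primrec_sum fun j => primrec_sum fun k => ?_
  exact primrec_mul (primrec_app (primrec_app (primrec_app hc i) j) k)
    (primrec_mul (primrec_mul (primrec_app hx i) (primrec_app hy j)) (primrec_app hz k))

theorem pred_isAlt {n : ℕ} {c : α → Fin n → Fin n → Fin n → ℤ} (hc : Primrec c) :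
    PrimrecPred fun a => IsAlt (c a) := by
  refine pred_forall fun i => pred_forall fun j => pred_forall fun k => ?_
  have h : ∀ i j k, Primrec fun a => c a i j k := fun i j k =>
    primrec_app (primrec_app (primrec_app hc i) j) k
  exact (pred_eq (h j i k) (primrec_neg (h i j k))).and
    (pred_eq (h i k j) (primrec_neg (h i j k)))

end

/-- Splitting by an invertible integral matrix. -/
def SplitsIff : Prop := ∀ (n : ℕ) (c : Fin n → Fin n → Fin n → ℤ), Splits c ↔
  ∃ (k : ℕ) (P Q : Fin n → Fin n → ℤ),
    (∀ i j, (∑ l, P i l * Q l j) = if i = j then 1 else 0) ∧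
    (∀ i j l : Fin n, (i : ℕ) < k → (j : ℕ) < k → (l : ℕ) < k →
      tri c (P i) (P j) (P l) = 0) ∧
    (∀ i j l : Fin n, k ≤ (i : ℕ) → k ≤ (j : ℕ) → k ≤ (l : ℕ) →
      tri c (P i) (P j) (P l) = 0)

/-- The set of splitting alternating forms is recursively enumerable. -/
theorem re_splits_of (hs : SplitsIff) (n : ℕ) :
    REPred fun c : Fin n → Fin n → Fin n → ℤ => IsAlt c ∧ Splits c := by
  let A := Fin n → Fin n → Fin n → ℤ
  let B := ℕ × (Fin n → Fin n → ℤ) × (Fin n → Fin n → ℤ)
  let R : A → B → Prop := fun c b => IsAlt c ∧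
    ((∀ i j, (∑ l, b.2.1 i l * b.2.2 l j) = if i = j then 1 else 0) ∧
    (∀ i j l : Fin n, (i : ℕ) < b.1 → (j : ℕ) < b.1 → (l : ℕ) < b.1 →
      tri c (b.2.1 i) (b.2.1 j) (b.2.1 l) = 0) ∧
    (∀ i j l : Fin n, b.1 ≤ (i : ℕ) → b.1 ≤ (j : ℕ) → b.1 ≤ (l : ℕ) →
      tri c (b.2.1 i) (b.2.1 j) (b.2.1 l) = 0))
  have hc : Primrec fun x : A × B => x.1 := Primrec.fst
  have hk : Primrec fun x : A × B => x.2.1 := Primrec.fst.comp Primrec.snd
  have hP : Primrec fun x : A × B => x.2.2.1 :=
    Primrec.fst.comp (Primrec.snd.comp Primrec.snd)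
  have hQ : Primrec fun x : A × B => x.2.2.2 :=
    Primrec.snd.comp (Primrec.snd.comp Primrec.snd)
  have hR : PrimrecPred fun x : A × B => R x.1 x.2 := by
    refine (pred_isAlt hc).and (PrimrecPred.and ?_ (PrimrecPred.and ?_ ?_))
    · refine pred_forall fun i => pred_forall fun j => pred_eq ?_ (Primrec.const _)
      exact primrec_sum fun l => primrec_mul (primrec_app (primrec_app hP i) l)
        (primrec_app (primrec_app hQ l) j)
    · refine pred_forall fun i => pred_forall fun j => pred_forall fun l => ?_
      have hlt : ∀ i : Fin n, PrimrecPred fun x : A × B => (i : ℕ) < x.2.1 := fun i =>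
        Primrec.nat_lt.comp (Primrec.const _) hk
      exact pred_imp (hlt i) (pred_imp (hlt j) (pred_imp (hlt l)
        (pred_eq (primrec_tri hc (primrec_app hP i) (primrec_app hP j) (primrec_app hP l))
          (Primrec.const 0))))
    · refine pred_forall fun i => pred_forall fun j => pred_forall fun l => ?_
      have hle : ∀ i : Fin n, PrimrecPred fun x : A × B => x.2.1 ≤ (i : ℕ) := fun i =>
        Primrec.nat_le.comp hk (Primrec.const _)
      exact pred_imp (hle i) (pred_imp (hle j) (pred_imp (hle l)
        (pred_eq (primrec_tri hc (primrec_app hP i) (primrec_app hP j) (primrec_app hP l))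
          (Primrec.const 0))))
  refine (re_exists hR).of_eq fun c => ?_
  rw [hs n c]
  constructor
  · rintro ⟨b, h1, h2⟩
    exact ⟨h1, b.1, b.2.1, b.2.2, h2⟩
  · rintro ⟨h1, k, P, Q, h2⟩
    exact ⟨(k, P, Q), h1, h2⟩

end Pool.Agent.Helper60.MR
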